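import Pool.Agent.H629.TA.Stm

set_option autoImplicit false
set_option linter.all false

/-!
New triangles: mean and errors (helper77 for helper629, project TA).
-/

open Finset

namespace Pool.Agent.H77.TA.E3

open Pool.Agent.H629.TA

theorem tri_two (m : ℕ) (h : Hist m) : tri m h 2 = 0 := by
  unfold tri
  apply sum_eq_zero
  intro a ha
  apply sum_eq_zero
  intro b hb
  apply sum_eq_zero
  intro c hc
  rw [mem_Icc] at ha hb hc
  rw [if_neg]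
  omega

theorem chi_lt (m : ℕ) (δ : ℝ) (hδ : 0 < δ) : 0 ≤ chi m δ ∧ chi m δ < 1 / 2 := by
  have hm : (0 : ℝ) ≤ m := Nat.cast_nonneg m
  have hp : 0 < 2 * (m : ℝ) + δ := by linarith
  unfold chi
  constructor
  · positivity
  · rw [div_lt_iff₀ hp]
    linarith

/-- lower bound for `WW` -/
theorem WW_ge (htw : S_TW) (m : ℕ) (δ : ℝ) (hδ : 0 < δ) (k : ℕ) (h : Hist m) (hk : 2 ≤ k) (hv : Valid m h k) :
    (m : ℝ) ^ 3 * ((k : ℝ) - 1) ≤ WW m δ k h := by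
  obtain ⟨h1, -, h3⟩ := htw m k h hk hv
  unfold WW
  have h4 : ∑ a ∈ Icc 1 k, ∑ b ∈ Icc 1 k, (mult m h a b : ℝ) * ((m : ℝ) * m) ≤
      ∑ a ∈ Icc 1 k, ∑ b ∈ Icc 1 k, (mult m h a b : ℝ) * (wt m δ h k a * wt m δ h k b) := by
    apply sum_le_sum
    intro a ha
    apply sum_le_sum
    intro b hb
    have wa : (m : ℝ) ≤ wt m δ h k a := by
      have : (m : ℝ) ≤ (deg m h k a : ℝ) := by exact_mod_cast h3 a ha
      unfold wt; linarith
    have wb : (m : ℝ) ≤ wt m δ h k b := by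
      have : (m : ℝ) ≤ (deg m h k b : ℝ) := by exact_mod_cast h3 b hb
      unfold wt; linarith
    have hm : (0 : ℝ) ≤ m := Nat.cast_nonneg m
    exact mul_le_mul_of_nonneg_left (mul_le_mul wa wb hm (le_trans hm wa)) (Nat.cast_nonneg _)
  have h5 : ∑ a ∈ Icc 1 k, ∑ b ∈ Icc 1 k, (mult m h a b : ℝ) * ((m : ℝ) * m) =
      (2 * m * ((k : ℝ) - 1)) * (m * m) := by
    rw [← h1, sum_mul]
    apply sum_congr rfl
    intro a _
    rw [← sum_mul]
    unfold deg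
    push_cast
    rfl
  rw [h5] at h4
  nlinarith [h4]

/-- the number of the triangles after one step -/
theorem step_tri (htr : S_TR) (hsr : S_SR) (m : ℕ) (δ : ℝ) (hm : 1 ≤ m) (hδ : 0 < δ) (k : ℕ) (h : Hist m)
    (hk : 2 ≤ k) (hv : Valid m h k) :
    step m δ k (fun h' => (tri m h' (k + 1) : ℝ)) h =
      (tri m h k : ℝ) + step m δ k (fun h' => (xi m k h' : ℝ)) h := by
  obtain ⟨r1, r2, -, -, r5⟩ := hsr m δ hm hδ k h hk hv
  have e : step m δ k (fun h' => (tri m h' (k + 1) : ℝ)) h =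
      step m δ k (fun h' => (tri m h k : ℝ) + (xi m k h' : ℝ)) h := by
    apply r5
    intro j hj
    obtain ⟨t1, t2, -⟩ := htr m k h j hk hj
    show ((tri m (Function.update h (k + 1) j) (k + 1) : ℕ) : ℝ) =
      (tri m h k : ℝ) + ((xi m k (Function.update h (k + 1) j) : ℕ) : ℝ)
    have e2 : xi m k (Function.update h (k + 1) j) =
        tri m (Function.update h (k + 1) j) (k + 1) - tri m h k := by
      unfold xi
      rw [t1]
    rw [e2, Nat.cast_sub t2]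
    ring
  rw [e]
  have e3 := r2 (fun _ => (tri m h k : ℝ)) (fun h' => (xi m k h' : ℝ))
  rw [r1] at e3
  exact e3

theorem diff_eq (her : S_ER) (hsr : S_SR) (htr : S_TR) (m : ℕ) (δ : ℝ) (hm : 1 ≤ m) (hδ : 0 < δ) (i : ℕ) :
    mT m δ (i + 1) - mT m δ i = Ex m δ i (fun h => step m δ (i + 2) (fun h => (xi m (i + 2) h : ℝ)) h) := by
  obtain ⟨-, r2, -, -, r5, -⟩ := her m δ hm hδ i
  have e1 : mT m δ (i + 1) = Ex m δ i (step m δ (i + 2) (fun h => (tri m h (i + 1 + 2) : ℝ))) := rfl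
  have e2 : Ex m δ i (step m δ (i + 2) (fun h => (tri m h (i + 1 + 2) : ℝ))) =
      Ex m δ i (fun h => (tri m h (i + 2) : ℝ) + step m δ (i + 2) (fun h' => (xi m (i + 2) h' : ℝ)) h) := by
    apply r5
    intro h hv
    exact step_tri htr hsr m δ hm hδ (i + 2) h (by omega) hv
  rw [e1, e2, r2 (fun h => (tri m h (i + 2) : ℝ)) (fun h => step m δ (i + 2) (fun h' => (xi m (i + 2) h' : ℝ)) h)]
  unfold mT
  ring

theorem t_E3 : S_ER → S_SR → S_UP → S_TR → S_TW → S_P2 → S_PX → S_GF → S_E1 → S_E2 → S_E3 := by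
  intro her hsr _ htr htw hp2 hpx hgf he1 he2 m δ hm hδ
  have hm1 : 1 ≤ m := by omega
  obtain ⟨K, c₀, hK, hc₀, gf⟩ := hgf m δ hm1 hδ
  obtain ⟨C₁, hC₁, e1⟩ := he1 m δ hm hδ
  obtain ⟨C₂, hC₂, e2⟩ := he2 m δ hm hδ
  obtain ⟨C₃, hC₃, px⟩ := hpx m δ hm hδ
  obtain ⟨hχ0, hχ1⟩ := chi_lt m δ hδ
  have htt : 0 ≤ tt m δ ∧ tt m δ < 2 := by
    unfold tt
    constructor <;> linarith
  have hmR : (2 : ℝ) ≤ m := by exact_mod_cast hm
  have hKp : 0 < K := by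
    have h := gf 2 le_rfl
    have h1 := h.1.trans h.2.1
    push_cast at h1
    linarith
  obtain ⟨B, hB⟩ : ∃ B : ℝ, B = m * (m - 1) := ⟨_, rfl⟩
  have hBp : 0 < B := by
    rw [hB]
    have : (0 : ℝ) < m - 1 := by linarith
    positivity
  -- the constants
  set CU : ℝ := B * C₁ / c₀ ^ 2 with hCU
  set CV : ℝ := B / c₀ ^ 2 * Real.sqrt C₂ with hCV
  set CX : ℝ := C₃ * (C₁ / c₀ ^ 2 + C₁ / c₀ ^ 3 + (C₂ + C₁ ^ 2) / c₀ ^ 4) with hCX
  have hCU0 : 0 ≤ CU := by positivity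
  have hCV0 : 0 ≤ CV := by positivity
  have hCX0 : 0 ≤ CX := by positivity
  refine ⟨B * (m : ℝ) ^ 3 / (2 * K ^ 2), CU + CV + CX, by positivity, by positivity, ?_⟩
  intro i
  obtain ⟨x, hx⟩ : ∃ x : ℝ, x = (i : ℝ) + 2 := ⟨_, rfl⟩
  have hi0 : (0 : ℝ) ≤ i := Nat.cast_nonneg i
  have hx2 : 2 ≤ x := by rw [hx]; linarith
  have hx0 : 0 < x := by linarith
  have hx1 : 1 ≤ x := by linarith
  have hcast : ((i + 2 : ℕ) : ℝ) = x := by rw [hx]; push_cast; ring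
  obtain ⟨T, hT⟩ : ∃ T : ℝ, T = tot m δ (i + 2) := ⟨_, rfl⟩
  obtain ⟨g1, g2, -⟩ := gf (i + 2) (by omega)
  rw [hcast, ← hT] at g1 g2
  have hTp : 0 < T := lt_of_lt_of_le (by positivity) g1
  obtain ⟨r1, r2, r3, r4, r5, r6, r7, r8⟩ := her m δ hm1 hδ i
  have hd := diff_eq her hsr htr m δ hm1 hδ i
  obtain ⟨s1, s2, s3, s4, s5⟩ := e1 i
  obtain ⟨v1, v2⟩ := e2 i
  rw [← hx] at s1 s2 s3 s4 s5 v1 v2
  -- the mean
  obtain ⟨W, hW⟩ : ∃ W : ℝ, W = Ex m δ i (WW m δ (i + 2)) := ⟨_, rfl⟩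
  rw [← hW] at s5 v2
  have hstep : ∀ h, Valid m h (i + 2) → step m δ (i + 2) (fun h => (xi m (i + 2) h : ℝ)) h =
      B / T ^ 2 * WW m δ (i + 2) h := by
    intro h hv
    rw [(hp2 m δ hm hδ (i + 2) h (by omega) hv).2.2, hB, hT]
  have hmean : mT m δ (i + 1) - mT m δ i = B / T ^ 2 * W := by
    rw [hd, r5 _ (fun h => B / T ^ 2 * WW m δ (i + 2) h) hstep, r3 (B / T ^ 2) (WW m δ (i + 2)), hW]
  have hWge : (m : ℝ) ^ 3 * (x - 1) ≤ W := by
    have h1 := r4 (fun _ => (m : ℝ) ^ 3 * (x - 1)) (WW m δ (i + 2)) (by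
      intro h hv
      have := WW_ge htw m δ hδ (i + 2) h (by omega) hv
      rw [hcast] at this
      exact this)
    rw [r1] at h1
    rw [hW]
    exact h1
  have hW0 : 0 ≤ W := le_trans (mul_nonneg (by positivity) (by linarith)) hWge
  have hT2 : (c₀ * x) ^ 2 ≤ T ^ 2 := pow_le_pow_left₀ (by positivity) g1 2
  have hT3 : (c₀ * x) ^ 3 ≤ T ^ 3 := pow_le_pow_left₀ (by positivity) g1 3
  have hT4 : (c₀ * x) ^ 4 ≤ T ^ 4 := pow_le_pow_left₀ (by positivity) g1 4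
  have hTK : T ^ 2 ≤ (K * x) ^ 2 := pow_le_pow_left₀ hTp.le g2 2
  have hBT : B / T ^ 2 ≤ B / (c₀ * x) ^ 2 := div_le_div_of_nonneg_left hBp.le (by positivity) hT2
  have hup : mT m δ (i + 1) - mT m δ i ≤ CU / x := by
    rw [hmean]
    calc B / T ^ 2 * W ≤ B / (c₀ * x) ^ 2 * (C₁ * x) := mul_le_mul hBT s5 hW0 (by positivity)
      _ = CU / x := by rw [hCU]; field_simp
  have hlow : B * (m : ℝ) ^ 3 / (2 * K ^ 2) / x ≤ mT m δ (i + 1) - mT m δ i := by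
    rw [hmean]
    have h1 : (m : ℝ) ^ 3 * (x / 2) ≤ W := le_trans (mul_le_mul_of_nonneg_left (by linarith) (by positivity)) hWge
    calc B * (m : ℝ) ^ 3 / (2 * K ^ 2) / x = B / (K * x) ^ 2 * ((m : ℝ) ^ 3 * (x / 2)) := by field_simp
      _ ≤ B / T ^ 2 * W := mul_le_mul (div_le_div_of_nonneg_left hBp.le (by positivity) hTK) h1 (by positivity)
          (by positivity)
  -- the exponent
  obtain ⟨e, he⟩ : ∃ e : ℝ, e = -1 - (2 - tt m δ) / 2 := ⟨_, rfl⟩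
  rw [← hx, ← he]
  have hxe : 0 ≤ x ^ e := Real.rpow_nonneg hx0.le _
  have hvar : Ex m δ i (fun h => (step m δ (i + 2) (fun h => (xi m (i + 2) h : ℝ)) h -
      (mT m δ (i + 1) - mT m δ i)) ^ 2) ≤ (CV * x ^ e) ^ 2 := by
    have h1 : Ex m δ i (fun h => (step m δ (i + 2) (fun h => (xi m (i + 2) h : ℝ)) h -
        (mT m δ (i + 1) - mT m δ i)) ^ 2) = (B / T ^ 2) ^ 2 * Ex m δ i (fun h => (WW m δ (i + 2) h - W) ^ 2) := by
      rw [← r3]
      apply r5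
      intro h hv
      show (step m δ (i + 2) (fun h => (xi m (i + 2) h : ℝ)) h - (mT m δ (i + 1) - mT m δ i)) ^ 2 =
        (B / T ^ 2) ^ 2 * (WW m δ (i + 2) h - W) ^ 2
      rw [hstep h hv, hmean]
      ring
    have h2 : (0 : ℝ) ≤ Ex m δ i (fun h => (WW m δ (i + 2) h - W) ^ 2) := by
      have := r4 (fun _ => (0 : ℝ)) (fun h => (WW m δ (i + 2) h - W) ^ 2) (fun h _ => sq_nonneg _)
      rwa [r1] at this
    have h3 : (B / T ^ 2) ^ 2 ≤ (B / (c₀ * x) ^ 2) ^ 2 := pow_le_pow_left₀ (by positivity) hBT 2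
    have h4 : (x ^ e) ^ 2 = x ^ (tt m δ) / x ^ 4 := by
      rw [← Real.rpow_natCast (x ^ e) 2, ← Real.rpow_mul hx0.le, ← Real.rpow_natCast x 4, ← Real.rpow_sub hx0, he]
      congr 1
      push_cast
      ring
    rw [h1]
    calc (B / T ^ 2) ^ 2 * Ex m δ i (fun h => (WW m δ (i + 2) h - W) ^ 2)
        ≤ (B / (c₀ * x) ^ 2) ^ 2 * (C₂ * x ^ (tt m δ)) := mul_le_mul h3 v2 h2 (by positivity)
      _ = (B / c₀ ^ 2) ^ 2 * C₂ * (x ^ (tt m δ) / x ^ 4) := by field_simp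
      _ = (B / c₀ ^ 2) ^ 2 * (Real.sqrt C₂) ^ 2 * (x ^ e) ^ 2 := by rw [h4, Real.sq_sqrt hC₂]
      _ = (CV * x ^ e) ^ 2 := by rw [hCV]; ring
  have hsec : Ex m δ i (step m δ (i + 2) (fun h => (xi m (i + 2) h : ℝ) * ((xi m (i + 2) h : ℝ) - 1))) ≤
      CX * x ^ e := by
    have h1 := r4 (step m δ (i + 2) (fun h => (xi m (i + 2) h : ℝ) * ((xi m (i + 2) h : ℝ) - 1)))
      (fun h => (C₃ / T ^ 2 * QQ m δ (i + 2) h + C₃ / T ^ 3 * VV m δ (i + 2) h) +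
        C₃ / T ^ 4 * WW m δ (i + 2) h ^ 2) (by
        intro h hv
        have := px (i + 2) h (by omega) hv
        rw [← hT] at this
        calc _ ≤ _ := this
          _ = _ := by ring)
    rw [r2 (fun h => C₃ / T ^ 2 * QQ m δ (i + 2) h + C₃ / T ^ 3 * VV m δ (i + 2) h)
      (fun h => C₃ / T ^ 4 * WW m δ (i + 2) h ^ 2),
      r2 (fun h => C₃ / T ^ 2 * QQ m δ (i + 2) h) (fun h => C₃ / T ^ 3 * VV m δ (i + 2) h),
      r3 (C₃ / T ^ 2) (QQ m δ (i + 2)), r3 (C₃ / T ^ 3) (VV m δ (i + 2)),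
      r3 (C₃ / T ^ 4) (fun h => WW m δ (i + 2) h ^ 2)] at h1
    have h2 : Ex m δ i (fun h => WW m δ (i + 2) h ^ 2) =
        Ex m δ i (fun h => (WW m δ (i + 2) h - W) ^ 2) + W ^ 2 := by
      have a1 : Ex m δ i (fun h => WW m δ (i + 2) h ^ 2) =
          Ex m δ i (fun h => ((WW m δ (i + 2) h - W) ^ 2 + 2 * W * WW m δ (i + 2) h) + -W ^ 2) := by
        apply r5
        intro h _
        ring
      rw [a1, r2 (fun h => (WW m δ (i + 2) h - W) ^ 2 + 2 * W * WW m δ (i + 2) h) (fun _ => -W ^ 2),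
        r2 (fun h => (WW m δ (i + 2) h - W) ^ 2) (fun h => 2 * W * WW m δ (i + 2) h),
        r3 (2 * W) (WW m δ (i + 2)), r1, ← hW]
      ring
    rw [h2] at h1
    -- exponents
    have p1 : x ^ (tt m δ - 1) = x ^ (tt m δ - 3) * x ^ 2 := by
      rw [← Real.rpow_natCast x 2, ← Real.rpow_add hx0]
      congr 1
      push_cast
      ring
    have p2 : x ^ (tt m δ) = x ^ (tt m δ - 3) * x ^ 3 := by
      rw [← Real.rpow_natCast x 3, ← Real.rpow_add hx0]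
      congr 1
      push_cast
      ring
    have p3 : x ^ (tt m δ) ≤ x ^ 2 := by
      rw [← Real.rpow_natCast x 2]
      apply Real.rpow_le_rpow_of_exponent_le hx1
      push_cast
      exact htt.2.le
    have p4 : x ^ (tt m δ - 3) ≤ x ^ e := by
      apply Real.rpow_le_rpow_of_exponent_le hx1
      rw [he]
      linarith [htt.2]
    have p5 : 1 / x ^ 2 ≤ x ^ e := by
      have : 1 / x ^ 2 = x ^ (-2 : ℝ) := by
        rw [Real.rpow_neg hx0.le, one_div]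
        congr 1
        rw [← Real.rpow_natCast x 2]
        norm_num
      rw [this]
      apply Real.rpow_le_rpow_of_exponent_le hx1
      rw [he]
      linarith [htt.1]
    have q1 : C₃ / T ^ 2 * Ex m δ i (QQ m δ (i + 2)) ≤ C₃ * (C₁ / c₀ ^ 2) * x ^ e := by
      have a0 : (0 : ℝ) ≤ C₁ * x ^ (tt m δ - 1) := by positivity
      calc C₃ / T ^ 2 * Ex m δ i (QQ m δ (i + 2)) ≤ C₃ / T ^ 2 * (C₁ * x ^ (tt m δ - 1)) :=
            mul_le_mul_of_nonneg_left s4 (by positivity)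
        _ ≤ C₃ / (c₀ * x) ^ 2 * (C₁ * x ^ (tt m δ - 1)) :=
            mul_le_mul_of_nonneg_right (div_le_div_of_nonneg_left hC₃ (by positivity) hT2) a0
        _ = C₃ * (C₁ / c₀ ^ 2) * x ^ (tt m δ - 3) := by rw [p1]; field_simp
        _ ≤ C₃ * (C₁ / c₀ ^ 2) * x ^ e := mul_le_mul_of_nonneg_left p4 (by positivity)
    have q2 : C₃ / T ^ 3 * Ex m δ i (VV m δ (i + 2)) ≤ C₃ * (C₁ / c₀ ^ 3) * x ^ e := by
      have a0 : (0 : ℝ) ≤ C₁ * x ^ (tt m δ) := by positivity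
      calc C₃ / T ^ 3 * Ex m δ i (VV m δ (i + 2)) ≤ C₃ / T ^ 3 * (C₁ * x ^ (tt m δ)) :=
            mul_le_mul_of_nonneg_left s3 (by positivity)
        _ ≤ C₃ / (c₀ * x) ^ 3 * (C₁ * x ^ (tt m δ)) :=
            mul_le_mul_of_nonneg_right (div_le_div_of_nonneg_left hC₃ (by positivity) hT3) a0
        _ = C₃ * (C₁ / c₀ ^ 3) * x ^ (tt m δ - 3) := by rw [p2]; field_simp
        _ ≤ C₃ * (C₁ / c₀ ^ 3) * x ^ e := mul_le_mul_of_nonneg_left p4 (by positivity)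
    have q3 : C₃ / T ^ 4 * (Ex m δ i (fun h => (WW m δ (i + 2) h - W) ^ 2) + W ^ 2) ≤
        C₃ * ((C₂ + C₁ ^ 2) / c₀ ^ 4) * x ^ e := by
      have a1 : Ex m δ i (fun h => (WW m δ (i + 2) h - W) ^ 2) + W ^ 2 ≤ (C₂ + C₁ ^ 2) * x ^ 2 := by
        have b1 : C₂ * x ^ (tt m δ) ≤ C₂ * x ^ 2 := mul_le_mul_of_nonneg_left p3 hC₂
        have b2 : W ^ 2 ≤ (C₁ * x) ^ 2 := pow_le_pow_left₀ hW0 s5 2
        calc _ ≤ C₂ * x ^ (tt m δ) + (C₁ * x) ^ 2 := add_le_add v2 b2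
          _ ≤ C₂ * x ^ 2 + (C₁ * x) ^ 2 := by linarith
          _ = (C₂ + C₁ ^ 2) * x ^ 2 := by ring
      calc C₃ / T ^ 4 * (Ex m δ i (fun h => (WW m δ (i + 2) h - W) ^ 2) + W ^ 2)
          ≤ C₃ / T ^ 4 * ((C₂ + C₁ ^ 2) * x ^ 2) := mul_le_mul_of_nonneg_left a1 (by positivity)
        _ ≤ C₃ / (c₀ * x) ^ 4 * ((C₂ + C₁ ^ 2) * x ^ 2) :=
            mul_le_mul_of_nonneg_right (div_le_div_of_nonneg_left hC₃ (by positivity) hT4) (by positivity)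
        _ = C₃ * ((C₂ + C₁ ^ 2) / c₀ ^ 4) * (1 / x ^ 2) := by field_simp
        _ ≤ C₃ * ((C₂ + C₁ ^ 2) / c₀ ^ 4) * x ^ e := mul_le_mul_of_nonneg_left p5 (by positivity)
    calc _ ≤ _ := h1
      _ ≤ C₃ * (C₁ / c₀ ^ 2) * x ^ e + C₃ * (C₁ / c₀ ^ 3) * x ^ e + C₃ * ((C₂ + C₁ ^ 2) / c₀ ^ 4) * x ^ e :=
          add_le_add (add_le_add q1 q2) q3
      _ = CX * x ^ e := by rw [hCX]; ring
  refine ⟨?_, ?_, ?_, ?_, hd, ?_, ?_⟩
  · show ((tri m (fun _ _ => 0) 2 : ℕ) : ℝ) = 0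
    rw [tri_two, Nat.cast_zero]
  · show (((tri m (fun _ _ => 0) 2 : ℕ) : ℝ) - ((tri m (fun _ _ => 0) 2 : ℕ) : ℝ)) ^ 2 = 0
    rw [sub_self]
    norm_num
  · exact hlow
  · refine le_trans hup ?_
    apply div_le_div_of_nonneg_right _ hx0.le
    linarith
  · refine le_trans hvar (pow_le_pow_left₀ (by positivity) ?_ 2)
    apply mul_le_mul_of_nonneg_right _ hxe
    linarith
  · refine le_trans hsec ?_
    apply mul_le_mul_of_nonneg_right _ hxe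
    linarith

end Pool.Agent.H77.TA.E3
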